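import Mathlib
import Pool.Agent.TAM.Four

namespace Pool.Agent.Results.MP_d2aba3_al.FourGenerators

open LaurentPolynomial Matrix

/-- The group `SL_2(ℤ[T;T⁻¹])` is generated by the four elementary matrices
`E_12(1)`, `E_12(T)`, `E_21(1)`, `E_21(T⁻¹)`. -/
theorem result :
    Subgroup.closure {g : SpecialLinearGroup (Fin 2) (LaurentPolynomial ℤ) |
      (g : Matrix (Fin 2) (Fin 2) (LaurentPolynomial ℤ)) = !![1, 1; 0, 1] ∨
      (g : Matrix (Fin 2) (Fin 2) (LaurentPolynomial ℤ)) = !![1, T 1; 0, 1] ∨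
      (g : Matrix (Fin 2) (Fin 2) (LaurentPolynomial ℤ)) = !![1, 0; 1, 1] ∨
      (g : Matrix (Fin 2) (Fin 2) (LaurentPolynomial ℤ)) = !![1, 0; T (-1), 1]} = ⊤ :=
  Pool.Agent.TAM.closure_four

end Pool.Agent.Results.MP_d2aba3_al.FourGenerators
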