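import Mathlib
import Pool.Agent.Helper74.LM.Cor

namespace Pool.Agent.Results.MP_d2aba3_al.LeadingMatrix

open LaurentPolynomial Matrix Pool.Agent.Helper74.LM

/-- Leading coefficients of tame matrices over `A[T;T⁻¹]`, `A` a domain: in degree zero the
leading matrix lies in `E_2(A)`, in positive degree the leading matrices are exactly the matrices
`c e E_12 e'`, `c ≠ 0`, `e, e' ∈ E_2(A)`, and in all twisted degrees the leading vector of the
first column is a multiple of the first column of a matrix in `E_2(A)`. -/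
theorem result {A : Type*} [CommRing A] [IsDomain A] :
    (∀ g ∈ E2 A[T;T⁻¹],
      (∃ e ∈ E2 A, MLead g.1 0 e.1) ∨
      ∃ n : ℕ, 0 < n ∧ ∃ c : A, c ≠ 0 ∧ ∃ e ∈ E2 A, ∃ e' ∈ E2 A,
        MLead g.1 n (c • (e.1 * !![0, 1; 0, 0] * e'.1))) ∧
    (∀ (n : ℤ), 0 < n → ∀ L : Matrix (Fin 2) (Fin 2) A, L ≠ 0 →
      ((∃ g ∈ E2 A[T;T⁻¹], MLead g.1 n L) ↔
        ∃ c : A, ∃ e ∈ E2 A, ∃ e' ∈ E2 A, L = c • (e.1 * !![0, 1; 0, 0] * e'.1))) ∧
    (∀ g ∈ E2 A[T;T⁻¹], ∀ (m n : ℤ) (x y : A), Lead (g.1 0 0) m x → Lead (g.1 1 0) n y →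
      ∃ e ∈ E2 A, ∃ c : A, x = c * e.1 0 0 ∧ y = c * e.1 1 0) := by
  refine ⟨fun g hg => leading hg, fun n hn L hL => ⟨?_, ?_⟩, ?_⟩
  · rintro ⟨g, hg, h⟩
    obtain ⟨c, _, e, he, e', he', hL'⟩ := leading_pos hg hn hL h
    exact ⟨c, e, he, e', he', hL'⟩
  · rintro ⟨c, e, he, e', he', rfl⟩
    refine ⟨cst e * up (C c * T n) * cst e', mul_mem (mul_mem (map_E2 C he) (up_mem _))
      (map_E2 C he'), ?_⟩
    have hu : MLead (up (C c * T n) : Matrix (Fin 2) (Fin 2) A[T;T⁻¹]) n (c • E12 A) := by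
      intro i j
      fin_cases i <;> fin_cases j
      · show Lead (1 : A[T;T⁻¹]) n (c * 0)
        rw [mul_zero]
        exact lead_one.up (by omega)
      · show Lead (C c * T n : A[T;T⁻¹]) n (c * 1)
        have := (lead_C c).mul (lead_T (A := A) n)
        rwa [zero_add] at this
      · show Lead (0 : A[T;T⁻¹]) n (c * 0)
        rw [mul_zero]
        exact lead_zero n
      · show Lead (1 : A[T;T⁻¹]) n (c * 0)
        rw [mul_zero]
        exact lead_one.up (by omega)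
    have h := ((cst_lead e).mul hu).mul (cst_lead e')
    rw [zero_add, add_zero, Matrix.mul_smul, Matrix.smul_mul] at h
    exact h
  · intro g hg m n x y hx hy
    exact column hg hx hy

end Pool.Agent.Results.MP_d2aba3_al.LeadingMatrix
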