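import Mathlib
import Pool.Agent.LPR.MainB

namespace Pool.Agent.Results.MP_d2aba3_al.PolynomialReduction

open Matrix Pool.Agent.LPR
open Pool.Agent.Helper74.LM (E2)

/-- Reduction of tameness over `R_j` to polynomial matrices.  (A) For every injective
`w : ℤ^j → ℝ` and every `g ∈ SL_2(R_j)` there is `e ∈ E_2(R_j)` such that for every `N` there is
a basis `B` of `ℤ^j` with `w (B i) > 0` such that all monomials in the entries of `e g - 1` are
divisible by the `N`-th power of the product of the monomials of the basis, in the polynomial ring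
of the basis.  (B) Tameness is decidable over `R_j` iff it is decidable for the matrices over the
polynomial ring that are congruent to `1` modulo `(x_1 ⋯ x_j)^N`. -/
theorem result (j : ℕ) :
    (∀ w : (Fin j → ℤ) →+ ℝ, Function.Injective w →
      ∀ g : SpecialLinearGroup (Fin 2) (Rj j), ∃ e ∈ E2 (Rj j), ∀ N : ℕ,
        ∃ B : Module.Basis (Fin j) ℤ (Fin j → ℤ), (∀ i, 0 < w (B i)) ∧
          ∀ a b m, ((e * g).1 a b - (1 : Matrix (Fin 2) (Fin 2) (Rj j)) a b).coeff m ≠ 0 →
            ∀ i, (N : ℤ) ≤ B.repr m i) ∧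
    ∀ N : ℕ, TameAlg j (fun _ => True) ↔ TameAlg j (Cong N) :=
  ⟨fun w hw g => mainA w hw g, fun N => mainB j N⟩

end Pool.Agent.Results.MP_d2aba3_al.PolynomialReduction
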