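import Mathlib
import Pool.Agent.Helper74.LM.Tran

namespace Pool.Agent.Results.MP_d2aba3_al.TransvectionTame

open LaurentPolynomial Matrix Pool.Agent.Helper74.LM

/-- Let `A` be a domain, `N` a 2 by 2 matrix over `A` with `N ^ 2 = 0` and `b` a Laurent
polynomial not in `A`. The matrix `1 + b N` lies in `E_2(A[T;T⁻¹])` if and only if
`N = c e E_12 e⁻¹` with `c ∈ A` and `e ∈ E_2(A)`. -/
theorem result {A : Type*} [CommRing A] [IsDomain A] (N : Matrix (Fin 2) (Fin 2) A)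
    (hN : N * N = 0) (b : A[T;T⁻¹]) (k : ℤ) (hk : k ≠ 0) (hb : b.coeff k ≠ 0)
    (g : SpecialLinearGroup (Fin 2) A[T;T⁻¹]) (hg : g.1 = 1 + b • N.map C) :
    g ∈ E2 A[T;T⁻¹] ↔
      ∃ c : A, ∃ e ∈ E2 A, N = c • (e.1 * !![0, 1; 0, 0] * e⁻¹.1) := by
  refine transvection hN hk hb ?_
  intro i j
  have := congrFun (congrFun hg i) j
  exact this

end Pool.Agent.Results.MP_d2aba3_al.TransvectionTame
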